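import Mathlib

/-! Uniform comparison of Gagliardo seminorms of different orders. -/

namespace Pool.Agent.Results.MP_95ea62_an.UniformComparison

open MeasureTheory ENNReal Set

/-- the Gagliardo seminorm of order `s` and exponent `p` on `ℝ^N` (with values in `[0, ∞]`) -/
noncomputable def gagliardo (N : ℕ) (p s : ℝ) (f : EuclideanSpace ℝ (Fin N) → ℂ) : ℝ≥0∞ :=
  (∫⁻ x, ∫⁻ y, ‖f x - f y‖ₑ ^ p / ‖x - y‖ₑ ^ (N + s * p)) ^ (1 / p)

/-- the `L^p` norm on `ℝ^N` (with values in `[0, ∞]`) -/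
noncomputable def lpNorm (N : ℕ) (p : ℝ) (f : EuclideanSpace ℝ (Fin N) → ℂ) : ℝ≥0∞ :=
  (∫⁻ x, ‖f x‖ₑ ^ p) ^ (1 / p)

/-! ### weighted geometric series of nondecreasing sequences -/

theorem tsum_geom (a δ : ℕ → ℝ≥0∞) (h : ∀ k, a k = ∑ j ∈ Finset.range (k + 1), δ j) (q : ℝ≥0∞) :
    ∑' k, q ^ k * a k = (∑' j, δ j * q ^ j) * (1 - q)⁻¹ := by
  have e1 : ∀ k, q ^ k * a k = ∑' j, (if j ≤ k then q ^ k * δ j else 0) := by
    intro k
    rw [h k, Finset.mul_sum, tsum_eq_sum (s := Finset.range (k + 1))]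
    · refine Finset.sum_congr rfl fun j hj => ?_
      rw [if_pos (Nat.lt_succ_iff.1 (Finset.mem_range.1 hj))]
    · intro j hj
      rw [if_neg]
      intro hle
      exact hj (Finset.mem_range.2 (Nat.lt_succ_iff.2 hle))
  rw [tsum_congr e1, ENNReal.tsum_comm, ← ENNReal.tsum_mul_right]
  refine tsum_congr fun j => ?_
  have e2 : ∑' k, (if j ≤ k then q ^ k * δ j else 0) = ∑' i, q ^ (i + j) * δ j := by
    rw [← (add_left_injective j).tsum_eq (f := fun k => if j ≤ k then q ^ k * δ j else 0)]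
    · refine tsum_congr fun i => ?_
      rw [if_pos (Nat.le_add_left j i)]
    · intro k hk
      have : j ≤ k := by
        by_contra hcon
        apply hk
        simp only
        rw [if_neg hcon]
      exact ⟨k - j, Nat.sub_add_cancel this⟩
  rw [e2, ENNReal.tsum_mul_right]
  have e3 : ∑' i, q ^ (i + j) = (1 - q)⁻¹ * q ^ j := by
    simp_rw [pow_add]
    rw [ENNReal.tsum_mul_right, ENNReal.tsum_geometric]
  rw [e3]
  ring

theorem geom_mono {a : ℕ → ℝ≥0∞} (ha : ∀ k, a k ≤ a (k + 1)) {q r : ℝ≥0∞} (hqr : q ≤ r)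
    (hr : r < 1) : (1 - q) * ∑' k, q ^ k * a k ≤ (1 - r) * ∑' k, r ^ k * a k := by
  let δ : ℕ → ℝ≥0∞ := fun j => Nat.casesOn j (a 0) fun i => a (i + 1) - a i
  have hδ : ∀ k, a k = ∑ j ∈ Finset.range (k + 1), δ j := by
    intro k
    induction k with
    | zero => simp [δ]
    | succ k ih =>
      rw [Finset.sum_range_succ, ← ih]
      exact (add_tsub_cancel_of_le (ha k)).symm
  have key : ∀ q : ℝ≥0∞, q < 1 → (1 - q) * ∑' k, q ^ k * a k = ∑' j, δ j * q ^ j := by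
    intro q hq
    rw [tsum_geom a δ hδ q, mul_comm, mul_assoc, ENNReal.inv_mul_cancel, mul_one]
    · exact (tsub_pos_iff_lt.2 hq).ne'
    · exact ne_top_of_le_ne_top one_ne_top tsub_le_self
  rw [key q (hqr.trans_lt hr), key r hr]
  refine ENNReal.tsum_le_tsum fun j => ?_
  gcongr

/-! ### elementary inequalities -/

theorem one_sub_le {p u : ℝ} (hp : 1 < p) (hu0 : 0 ≤ u) (hu1 : u ≤ 1) :
    u ≤ 2 * (1 - (2 : ℝ) ^ (-(p * u))) := by
  have h1 := Real.geom_mean_le_arith_mean2_weighted (w₁ := 1 - u) (w₂ := u) (p₁ := 1)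
    (p₂ := (2 : ℝ) ^ (-p)) (by linarith) hu0 zero_le_one (by positivity) (by ring)
  rw [Real.one_rpow, one_mul, ← Real.rpow_mul (by norm_num)] at h1
  have h2 : (2 : ℝ) ^ (-p) ≤ 1 / 2 := by
    have : (2 : ℝ) ^ (-p) ≤ 2 ^ (-1 : ℝ) :=
      Real.rpow_le_rpow_of_exponent_le (by norm_num) (by linarith)
    rwa [Real.rpow_neg_one, ← one_div] at this
  have e : -p * u = -(p * u) := by ring
  rw [e] at h1
  nlinarith

theorem one_sub_le' {p v : ℝ} (hp : 0 ≤ p) (hv : 0 ≤ v) : 1 - (2 : ℝ) ^ (-(p * v)) ≤ p * v := by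
  have h1 : (2 : ℝ) ^ (-(p * v)) = Real.exp (Real.log 2 * (-(p * v))) :=
    Real.rpow_def_of_pos (by norm_num) _
  rw [h1]
  have h2 := Real.add_one_le_exp (Real.log 2 * (-(p * v)))
  have h3 : Real.log 2 ≤ 1 := by
    have := Real.log_le_sub_one_of_pos (show (0 : ℝ) < 2 by norm_num)
    linarith
  have h4 : 0 ≤ p * v := mul_nonneg hp hv
  nlinarith

section Main

variable {N : ℕ} {p : ℝ} {f : EuclideanSpace ℝ (Fin N) → ℂ}

/-- `∫ |f(x + h) - f(x)|^p dx` -/
noncomputable def inc (p : ℝ) (f : EuclideanSpace ℝ (Fin N) → ℂ)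
    (h : EuclideanSpace ℝ (Fin N)) : ℝ≥0∞ := ∫⁻ x, ‖f (x + h) - f x‖ₑ ^ p

theorem measurable_inc (hf : Measurable f) : Measurable (inc p f) := by
  have : Measurable fun z : EuclideanSpace ℝ (Fin N) × EuclideanSpace ℝ (Fin N) =>
      ‖f (z.2 + z.1) - f z.2‖ₑ ^ p := by fun_prop
  exact this.lintegral_prod_right'

theorem inc_zero (hp : 1 < p) : inc p f 0 = 0 := by
  simp [inc, ENNReal.zero_rpow_of_pos (lt_trans zero_lt_one hp)]

theorem lintegral_add_le (hp : 1 < p) (u v : EuclideanSpace ℝ (Fin N) → ℂ) (hu : Measurable u) :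
    ∫⁻ x, ‖u x + v x‖ₑ ^ p ≤ 2 ^ (p - 1) * ((∫⁻ x, ‖u x‖ₑ ^ p) + ∫⁻ x, ‖v x‖ₑ ^ p) := by
  calc ∫⁻ x, ‖u x + v x‖ₑ ^ p ≤ ∫⁻ x, 2 ^ (p - 1) * (‖u x‖ₑ ^ p + ‖v x‖ₑ ^ p) := by
        refine lintegral_mono fun x => ?_
        refine (ENNReal.rpow_le_rpow (enorm_add_le _ _) (by linarith)).trans ?_
        exact ENNReal.rpow_add_le_mul_rpow_add_rpow _ _ hp.le
    _ = _ := by
        rw [lintegral_const_mul' _ _ (ENNReal.rpow_ne_top_of_nonneg (by linarith) (by simp)),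
          lintegral_add_left (by fun_prop)]

theorem two_rpow (p : ℝ) : (2 : ℝ≥0∞) ^ (p - 1) * 2 = 2 ^ p := by
  nth_rewrite 2 [← ENNReal.rpow_one 2]
  rw [← ENNReal.rpow_add _ _ (by norm_num) (by norm_num)]
  congr 1
  ring

theorem inc_le (hp : 1 < p) (hf : Measurable f) (h : EuclideanSpace ℝ (Fin N)) :
    inc p f h ≤ 2 ^ p * ∫⁻ x, ‖f x‖ₑ ^ p := by
  have h1 := lintegral_add_le hp (fun x => f (x + h)) (fun x => - f x) (by fun_prop)
  have h2 : ∫⁻ x, ‖f (x + h)‖ₑ ^ p = ∫⁻ x, ‖f x‖ₑ ^ p :=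
    lintegral_add_right_eq_self (fun x => ‖f x‖ₑ ^ p) h
  simp only [enorm_neg] at h1
  rw [h2, ← two_mul, ← mul_assoc, two_rpow] at h1
  refine le_trans (le_of_eq ?_) h1
  rw [inc]
  simp only [sub_eq_add_neg]

theorem inc_two (hp : 1 < p) (hf : Measurable f) (h : EuclideanSpace ℝ (Fin N)) :
    inc p f ((2 : ℝ) • h) ≤ 2 ^ p * inc p f h := by
  have h1 := lintegral_add_le hp (fun x => f (x + h + h) - f (x + h)) (fun x => f (x + h) - f x)
    (by fun_prop)
  have h2 : ∫⁻ x, ‖f (x + h + h) - f (x + h)‖ₑ ^ p = inc p f h :=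
    lintegral_add_right_eq_self (fun x => ‖f (x + h) - f x‖ₑ ^ p) h
  rw [h2] at h1
  change _ ≤ 2 ^ (p - 1) * (inc p f h + inc p f h) at h1
  rw [← two_mul, ← mul_assoc, two_rpow] at h1
  refine le_trans (le_of_eq ?_) h1
  rw [inc]
  refine lintegral_congr fun x => ?_
  rw [two_smul, ← add_assoc]
  congr 2
  ring

/-- the double integral is an integral over the increment -/
theorem double_eq (hf : Measurable f) (e : ℝ) :
    ∫⁻ x, ∫⁻ y, ‖f x - f y‖ₑ ^ p / ‖x - y‖ₑ ^ e = ∫⁻ h, inc p f h / ‖h‖ₑ ^ e := by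
  have h1 : ∀ x, ∫⁻ y, ‖f x - f y‖ₑ ^ p / ‖x - y‖ₑ ^ e =
      ∫⁻ h, ‖f (x + h) - f x‖ₑ ^ p / ‖h‖ₑ ^ e := by
    intro x
    rw [← lintegral_add_left_eq_self (fun y => ‖f x - f y‖ₑ ^ p / ‖x - y‖ₑ ^ e) x]
    refine lintegral_congr fun h => ?_
    rw [enorm_sub_rev (f x), sub_add_cancel_left, enorm_neg]
  simp_rw [h1]
  rw [lintegral_lintegral_swap]
  · refine lintegral_congr fun h => ?_
    simp_rw [div_eq_mul_inv]
    rw [lintegral_mul_const _ (by fun_prop)]
    rfl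
  · apply Measurable.aemeasurable
    fun_prop

/-- the dyadic annulus `2^(-k-1) < ‖h‖ ≤ 2^(-k)` -/
def ann (N k : ℕ) : Set (EuclideanSpace ℝ (Fin N)) :=
  {h | (1 / 2 : ℝ) ^ (k + 1) < ‖h‖ ∧ ‖h‖ ≤ (1 / 2 : ℝ) ^ k}

theorem measurableSet_ann (k : ℕ) : MeasurableSet (ann N k) :=
  (measurableSet_lt measurable_const measurable_norm).inter
    (measurableSet_le measurable_norm measurable_const)

theorem disjoint_ann : Pairwise (Function.onFun Disjoint (ann N)) := by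
  have key : ∀ i j, i < j → Disjoint (ann N i) (ann N j) := by
    intro i j hij
    rw [Set.disjoint_left]
    rintro h ⟨h1, -⟩ ⟨-, h2⟩
    have h3 : (1 / 2 : ℝ) ^ j ≤ (1 / 2) ^ (i + 1) :=
      pow_le_pow_of_le_one (by norm_num) (by norm_num) hij
    linarith
  intro i j hij
  rcases lt_or_gt_of_ne hij with h | h
  · exact key i j h
  · exact (key j i h).symm

/-- the mass of the increments over the annulus -/
noncomputable def mass (p : ℝ) (f : EuclideanSpace ℝ (Fin N) → ℂ) (k : ℕ) : ℝ≥0∞ :=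
  ∫⁻ h in ann N k, inc p f h

theorem mass_le (hp : 1 < p) (hf : Measurable f) (k : ℕ) :
    mass p f k ≤ ENNReal.ofReal (2 ^ ((N : ℝ) + p)) * mass p f (k + 1) := by
  have h1 : ∫⁻ h, (ann N k).indicator (inc p f) ((2 : ℝ) • h) =
      ENNReal.ofReal |((2 : ℝ) ^ N)⁻¹| * mass p f k := by
    rw [← lintegral_map ((measurable_inc hf).indicator (measurableSet_ann k)) (by fun_prop),
      Measure.map_addHaar_smul _ (by norm_num), lintegral_smul_measure,
      lintegral_indicator (measurableSet_ann k), finrank_euclideanSpace_fin]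
    rfl
  have h2 : ∫⁻ h, (ann N k).indicator (inc p f) ((2 : ℝ) • h) ≤ 2 ^ p * mass p f (k + 1) := by
    rw [mass, ← lintegral_indicator (measurableSet_ann (k + 1)), ← lintegral_const_mul' _ _
      (ENNReal.rpow_ne_top_of_nonneg (by linarith) (by simp))]
    refine lintegral_mono fun h => ?_
    by_cases hh : (2 : ℝ) • h ∈ ann N k
    · have hh' : h ∈ ann N (k + 1) := by
        obtain ⟨a, b⟩ := hh
        rw [norm_smul, Real.norm_eq_abs, abs_of_pos (by norm_num : (0 : ℝ) < 2)] at a b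
        rw [pow_succ] at a
        refine ⟨?_, ?_⟩
        · rw [pow_succ, pow_succ]
          linarith
        · rw [pow_succ]
          linarith
      rw [Set.indicator_of_mem hh, Set.indicator_of_mem hh']
      exact inc_two hp hf h
    · rw [Set.indicator_of_notMem hh]
      exact zero_le
  rw [h1] at h2
  have h3 : ENNReal.ofReal ((2 : ℝ) ^ N) * ENNReal.ofReal |((2 : ℝ) ^ N)⁻¹| = 1 := by
    rw [← ENNReal.ofReal_mul (by positivity), abs_of_pos (by positivity),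
      mul_inv_cancel₀ (by positivity), ENNReal.ofReal_one]
  calc mass p f k = ENNReal.ofReal ((2 : ℝ) ^ N) * (ENNReal.ofReal |((2 : ℝ) ^ N)⁻¹| *
        mass p f k) := by rw [← mul_assoc, h3, one_mul]
    _ ≤ ENNReal.ofReal ((2 : ℝ) ^ N) * (2 ^ p * mass p f (k + 1)) := by gcongr
    _ = _ := by
      rw [← mul_assoc]
      congr 1
      rw [Real.rpow_add (by norm_num), Real.rpow_natCast, ENNReal.ofReal_mul (by positivity),
        ← ENNReal.ofReal_rpow_of_pos (by norm_num)]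
      simp

theorem enorm_rpow {h : EuclideanSpace ℝ (Fin N)} (hh : 0 < ‖h‖) (e : ℝ) :
    (‖h‖ₑ ^ e)⁻¹ = ENNReal.ofReal ((‖h‖ ^ e)⁻¹) := by
  rw [← ofReal_norm, ENNReal.ofReal_rpow_of_pos hh,
    ENNReal.ofReal_inv_of_pos (Real.rpow_pos_of_pos hh e)]

theorem weight_le {k : ℕ} {h : EuclideanSpace ℝ (Fin N)} (hh : h ∈ ann N k) {e : ℝ} (he : 0 ≤ e) :
    (‖h‖ₑ ^ e)⁻¹ ≤ ENNReal.ofReal (2 ^ (((k : ℝ) + 1) * e)) := by
  obtain ⟨h1, -⟩ := hh
  have h0 : 0 < ‖h‖ := lt_trans (by positivity) h1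
  rw [enorm_rpow h0]
  apply ENNReal.ofReal_le_ofReal
  have h2 : (2 : ℝ) ^ (((k : ℝ) + 1) * e) = (((1 / 2 : ℝ) ^ (k + 1)) ^ e)⁻¹ := by
    rw [← Real.rpow_natCast, ← Real.rpow_mul (by norm_num), one_div, Real.inv_rpow (by norm_num),
      inv_inv]
    push_cast
    rfl
  rw [h2]
  apply inv_anti₀ (by positivity)
  exact Real.rpow_le_rpow (by positivity) h1.le he

theorem le_weight {k : ℕ} {h : EuclideanSpace ℝ (Fin N)} (hh : h ∈ ann N k) {e : ℝ} (he : 0 ≤ e) :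
    ENNReal.ofReal (2 ^ ((k : ℝ) * e)) ≤ (‖h‖ₑ ^ e)⁻¹ := by
  obtain ⟨h1, h3⟩ := hh
  have h0 : 0 < ‖h‖ := lt_trans (by positivity) h1
  rw [enorm_rpow h0]
  apply ENNReal.ofReal_le_ofReal
  have h2 : (2 : ℝ) ^ ((k : ℝ) * e) = (((1 / 2 : ℝ) ^ k) ^ e)⁻¹ := by
    rw [← Real.rpow_natCast, ← Real.rpow_mul (by norm_num), one_div, Real.inv_rpow (by norm_num),
      inv_inv]
  rw [h2]
  apply inv_anti₀ (by positivity)
  exact Real.rpow_le_rpow h0.le h3 he

/-- the weighted sum of the masses -/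
noncomputable def wsum (p : ℝ) (f : EuclideanSpace ℝ (Fin N) → ℂ) (e : ℝ) : ℝ≥0∞ :=
  ∑' k : ℕ, ENNReal.ofReal (2 ^ ((k : ℝ) * e)) * mass p f k

theorem wsum_le {e : ℝ} (he : 0 ≤ e) :
    wsum p f e ≤ ∫⁻ h, inc p f h / ‖h‖ₑ ^ e := by
  calc wsum p f e ≤ ∑' k, ∫⁻ h in ann N k, inc p f h / ‖h‖ₑ ^ e := by
        refine ENNReal.tsum_le_tsum fun k => ?_
        rw [mass, ← lintegral_const_mul' _ _ ENNReal.ofReal_ne_top]
        refine setLIntegral_mono' (measurableSet_ann k) fun h hh => ?_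
        rw [div_eq_mul_inv, mul_comm]
        gcongr
        exact le_weight hh he
    _ = ∫⁻ h in ⋃ k, ann N k, inc p f h / ‖h‖ₑ ^ e :=
        (lintegral_iUnion measurableSet_ann disjoint_ann _).symm
    _ ≤ _ := setLIntegral_le_lintegral _ _

theorem mem_iUnion_ann {h : EuclideanSpace ℝ (Fin N)} (h0 : 0 < ‖h‖) (h1 : ‖h‖ ≤ 1) :
    h ∈ ⋃ k, ann N k := by
  obtain ⟨n, hn1, hn2⟩ := exists_nat_pow_near_of_lt_one h0 h1 (by norm_num : (0 : ℝ) < 1 / 2)
    (by norm_num)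
  exact mem_iUnion.2 ⟨n, hn1, hn2⟩

theorem le_wsum (hp : 1 < p) (hf : Measurable f) {e r : ℝ} (he : 0 ≤ e) (hr : 0 ≤ r)
    (hre : r ≤ e) :
    ∫⁻ h, inc p f h / ‖h‖ₑ ^ e ≤
      (2 ^ p * ENNReal.ofReal (2 ^ r) *
        ∫⁻ h : EuclideanSpace ℝ (Fin N), ENNReal.ofReal ((1 + ‖h‖) ^ (-r))) *
        (∫⁻ x, ‖f x‖ₑ ^ p) + ENNReal.ofReal (2 ^ e) * wsum p f e := by
  set S : Set (EuclideanSpace ℝ (Fin N)) := ⋃ k, ann N k with hS
  have hSm : MeasurableSet S := MeasurableSet.iUnion measurableSet_ann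
  rw [← lintegral_add_compl _ hSm, add_comm]
  apply add_le_add
  · -- outside
    calc ∫⁻ h in Sᶜ, inc p f h / ‖h‖ₑ ^ e ≤
        ∫⁻ h in Sᶜ, (2 ^ p * ENNReal.ofReal (2 ^ r) * (∫⁻ x, ‖f x‖ₑ ^ p)) *
          ENNReal.ofReal ((1 + ‖h‖) ^ (-r)) := by
          refine setLIntegral_mono' hSm.compl fun h hh => ?_
          rcases eq_or_lt_of_le (norm_nonneg h) with h0 | h0
          · rw [norm_eq_zero.1 h0.symm, inc_zero hp, ENNReal.zero_div]
            exact zero_le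
          · have h1 : 1 < ‖h‖ := by
              by_contra hcon
              exact hh (mem_iUnion_ann h0 (not_lt.1 hcon))
            rw [div_eq_mul_inv, enorm_rpow h0]
            have h2 := inc_le hp hf h
            have h3 : (‖h‖ ^ e)⁻¹ ≤ 2 ^ r * (1 + ‖h‖) ^ (-r) := by
              calc (‖h‖ ^ e)⁻¹ ≤ (‖h‖ ^ r)⁻¹ :=
                    inv_anti₀ (by positivity) (Real.rpow_le_rpow_of_exponent_le h1.le hre)
                _ ≤ (((1 + ‖h‖) / 2) ^ r)⁻¹ :=
                    inv_anti₀ (by positivity) (Real.rpow_le_rpow (by positivity) (by linarith) hr)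
                _ = 2 ^ r * (1 + ‖h‖) ^ (-r) := by
                    rw [Real.div_rpow (by positivity) (by norm_num), inv_div,
                      Real.rpow_neg (by positivity), div_eq_mul_inv]
            calc inc p f h * ENNReal.ofReal (‖h‖ ^ e)⁻¹ ≤ (2 ^ p * ∫⁻ x, ‖f x‖ₑ ^ p) *
                ENNReal.ofReal (2 ^ r * (1 + ‖h‖) ^ (-r)) := by gcongr
              _ = _ := by
                rw [ENNReal.ofReal_mul (by positivity)]
                ring
      _ ≤ ∫⁻ h, (2 ^ p * ENNReal.ofReal (2 ^ r) * (∫⁻ x, ‖f x‖ₑ ^ p)) *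
          ENNReal.ofReal ((1 + ‖h‖) ^ (-r)) := setLIntegral_le_lintegral _ _
      _ = _ := by
        rw [lintegral_const_mul _ (by fun_prop)]
        ring
  · -- inside
    rw [hS, lintegral_iUnion measurableSet_ann disjoint_ann, wsum, ← ENNReal.tsum_mul_left]
    refine ENNReal.tsum_le_tsum fun k => ?_
    rw [mass, ← lintegral_const_mul' _ _ ENNReal.ofReal_ne_top,
      ← lintegral_const_mul' _ _ ENNReal.ofReal_ne_top]
    refine setLIntegral_mono' (measurableSet_ann k) fun h hh => ?_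
    have h1 := weight_le hh he
    rw [div_eq_mul_inv]
    calc inc p f h * (‖h‖ₑ ^ e)⁻¹ ≤ inc p f h * ENNReal.ofReal (2 ^ (((k : ℝ) + 1) * e)) := by
          gcongr
      _ = _ := by
        rw [add_mul, one_mul, Real.rpow_add (by norm_num), ENNReal.ofReal_mul (by positivity)]
        ring

/-- The normalised weighted sums are essentially nondecreasing in the order. -/
theorem wsum_mono (hp : 1 < p) (hf : Measurable f) {s t : ℝ} (hs : 0 < s) (hst : s < t)
    (ht : t < 1) :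
    ENNReal.ofReal (1 - s) * wsum p f (N + s * p) ≤
      ENNReal.ofReal (2 * p) * (ENNReal.ofReal (1 - t) * wsum p f (N + t * p)) := by
  have hp0 : 0 < p := lt_trans zero_lt_one hp
  let a : ℕ → ℝ≥0∞ := fun k => ENNReal.ofReal (2 ^ ((k : ℝ) * (N + p))) * mass p f k
  have ha : ∀ k, a k ≤ a (k + 1) := by
    intro k
    have := mass_le hp hf k
    calc a k ≤ ENNReal.ofReal (2 ^ ((k : ℝ) * (N + p))) *
          (ENNReal.ofReal (2 ^ ((N : ℝ) + p)) * mass p f (k + 1)) := by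
          simp only [a]
          gcongr
      _ = a (k + 1) := by
          simp only [a]
          rw [← mul_assoc, ← ENNReal.ofReal_mul (by positivity), ← Real.rpow_add (by norm_num)]
          congr 3
          push_cast
          ring
  have hw : ∀ u : ℝ, wsum p f (N + u * p) =
      ∑' k, (ENNReal.ofReal (2 ^ (-(p * (1 - u))))) ^ k * a k := by
    intro u
    rw [wsum]
    refine tsum_congr fun k => ?_
    simp only [a]
    rw [← mul_assoc, ← ENNReal.ofReal_pow (by positivity), ← ENNReal.ofReal_mul (by positivity),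
      ← Real.rpow_natCast, ← Real.rpow_mul (by norm_num), ← Real.rpow_add (by norm_num)]
    congr 3
    ring
  have hq : ENNReal.ofReal ((2 : ℝ) ^ (-(p * (1 - s)))) ≤
      ENNReal.ofReal ((2 : ℝ) ^ (-(p * (1 - t)))) := by
    apply ENNReal.ofReal_le_ofReal
    apply Real.rpow_le_rpow_of_exponent_le (by norm_num)
    nlinarith
  have hr : ENNReal.ofReal ((2 : ℝ) ^ (-(p * (1 - t)))) < 1 := by
    rw [← ENNReal.ofReal_one]
    apply (ENNReal.ofReal_lt_ofReal_iff one_pos).2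
    apply Real.rpow_lt_one_of_one_lt_of_neg (by norm_num)
    have : 0 < p * (1 - t) := mul_pos hp0 (by linarith)
    linarith
  have hg := geom_mono ha hq hr
  rw [← hw, ← hw] at hg
  have e1 : ∀ u : ℝ, (1 : ℝ≥0∞) - ENNReal.ofReal ((2 : ℝ) ^ (-(p * (1 - u)))) =
      ENNReal.ofReal (1 - (2 : ℝ) ^ (-(p * (1 - u)))) := by
    intro u
    rw [ENNReal.ofReal_sub _ (by positivity), ENNReal.ofReal_one]
  rw [e1, e1] at hg
  have i1 := one_sub_le hp (u := 1 - s) (by linarith) (by linarith)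
  have i2 := one_sub_le' hp0.le (v := 1 - t) (by linarith)
  calc ENNReal.ofReal (1 - s) * wsum p f (N + s * p) ≤
      ENNReal.ofReal (2 * (1 - (2 : ℝ) ^ (-(p * (1 - s))))) * wsum p f (N + s * p) := by gcongr
    _ = ENNReal.ofReal 2 * (ENNReal.ofReal (1 - (2 : ℝ) ^ (-(p * (1 - s)))) *
        wsum p f (N + s * p)) := by
        rw [ENNReal.ofReal_mul (by norm_num), mul_assoc]
    _ ≤ ENNReal.ofReal 2 * (ENNReal.ofReal (1 - (2 : ℝ) ^ (-(p * (1 - t)))) *
        wsum p f (N + t * p)) := by gcongr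
    _ ≤ ENNReal.ofReal 2 * (ENNReal.ofReal (p * (1 - t)) * wsum p f (N + t * p)) := by gcongr
    _ = _ := by
        rw [ENNReal.ofReal_mul hp0.le, ENNReal.ofReal_mul (by norm_num)]
        ring

/-- the main estimate, without roots -/
theorem main_estimate (N : ℕ) (p θ : ℝ) (hp : 1 < p) (hθ : 0 < θ) :
    ∃ M : ℝ≥0∞, M ≠ ∞ ∧ ∀ s t : ℝ, θ < s → s < t → t < 1 →
      ∀ f : EuclideanSpace ℝ (Fin N) → ℂ, Measurable f →
        ENNReal.ofReal (min s (1 - s)) * (∫⁻ h, inc p f h / ‖h‖ₑ ^ (N + s * p)) ≤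
          M * ((∫⁻ x, ‖f x‖ₑ ^ p) +
            ENNReal.ofReal (min t (1 - t)) * ∫⁻ h, inc p f h / ‖h‖ₑ ^ (N + t * p)) := by
  have hp0 : 0 < p := lt_trans zero_lt_one hp
  set r : ℝ := N + θ * p with hr
  have hr0 : 0 ≤ r := by positivity
  set K : ℝ≥0∞ := 2 ^ p * ENNReal.ofReal (2 ^ r) *
        ∫⁻ h : EuclideanSpace ℝ (Fin N), ENNReal.ofReal ((1 + ‖h‖) ^ (-r)) with hK
  have hKt : K ≠ ∞ := by
    have h1 : (Module.finrank ℝ (EuclideanSpace ℝ (Fin N)) : ℝ) < r := by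
      rw [finrank_euclideanSpace_fin, hr]
      have : 0 < θ * p := by positivity
      linarith
    have h2 := finite_integral_one_add_norm (μ := (volume : Measure (EuclideanSpace ℝ (Fin N)))) h1
    exact ENNReal.mul_ne_top (ENNReal.mul_ne_top
      (ENNReal.rpow_ne_top_of_nonneg hp0.le (by simp)) ENNReal.ofReal_ne_top) h2.ne
  set c : ℝ≥0∞ := ENNReal.ofReal (2 ^ ((N : ℝ) + p)) * (ENNReal.ofReal (2 * p) *
    ENNReal.ofReal (1 / θ)) with hc
  have hct : c ≠ ∞ := ENNReal.mul_ne_top ENNReal.ofReal_ne_top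
    (ENNReal.mul_ne_top ENNReal.ofReal_ne_top ENNReal.ofReal_ne_top)
  refine ⟨K + c, ENNReal.add_ne_top.2 ⟨hKt, hct⟩, ?_⟩
  intro s t hs hst ht f hf
  set A : ℝ≥0∞ := ∫⁻ x, ‖f x‖ₑ ^ p
  set J : ℝ≥0∞ := ∫⁻ h, inc p f h / ‖h‖ₑ ^ (N + t * p)
  have hs0 : 0 < s := hθ.trans hs
  have ht0 : 0 < t := hs0.trans hst
  have e0 : 0 ≤ N + s * p := by positivity
  have e1 : r ≤ N + s * p := by
    have : θ * p ≤ s * p := mul_le_mul_of_nonneg_right hs.le hp0.le
    linarith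
  have e2 : 0 ≤ N + t * p := by positivity
  have g1 := le_wsum hp hf e0 hr0 e1
  rw [← hK] at g1
  have g2 := wsum_mono hp hf hs0 hst ht
  have g3 : wsum p f (N + t * p) ≤ J := wsum_le e2
  have i1 : ENNReal.ofReal (min s (1 - s)) ≤ ENNReal.ofReal (1 - s) :=
    ENNReal.ofReal_le_ofReal (min_le_right _ _)
  have i2 : ENNReal.ofReal (min s (1 - s)) ≤ 1 := by
    rw [← ENNReal.ofReal_one]
    exact ENNReal.ofReal_le_ofReal ((min_le_right _ _).trans (by linarith))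
  have i3 : ENNReal.ofReal (1 - t) ≤ ENNReal.ofReal (1 / θ) * ENNReal.ofReal (min t (1 - t)) := by
    rw [← ENNReal.ofReal_mul (by positivity)]
    apply ENNReal.ofReal_le_ofReal
    have hθ1 : θ < 1 := by linarith
    have h1 : (1 - t) * θ ≤ min t (1 - t) := by
      apply le_min
      · nlinarith
      · nlinarith
    rw [one_div, inv_mul_eq_div, le_div_iff₀ hθ]
    exact h1
  have i4 : ENNReal.ofReal ((2 : ℝ) ^ (N + s * p)) ≤ ENNReal.ofReal (2 ^ ((N : ℝ) + p)) := by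
    apply ENNReal.ofReal_le_ofReal
    apply Real.rpow_le_rpow_of_exponent_le (by norm_num)
    nlinarith
  calc ENNReal.ofReal (min s (1 - s)) * (∫⁻ h, inc p f h / ‖h‖ₑ ^ (N + s * p)) ≤
      ENNReal.ofReal (min s (1 - s)) *
        (K * A + ENNReal.ofReal (2 ^ (N + s * p)) * wsum p f (N + s * p)) := by gcongr
    _ = ENNReal.ofReal (min s (1 - s)) * (K * A) + ENNReal.ofReal (2 ^ (N + s * p)) *
        (ENNReal.ofReal (min s (1 - s)) * wsum p f (N + s * p)) := by ring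
    _ ≤ 1 * (K * A) + ENNReal.ofReal (2 ^ ((N : ℝ) + p)) *
        (ENNReal.ofReal (2 * p) * (ENNReal.ofReal (1 - t) * wsum p f (N + t * p))) := by
        apply add_le_add
        · gcongr
        · apply mul_le_mul' i4
          exact (mul_le_mul' i1 le_rfl).trans g2
    _ ≤ 1 * (K * A) + ENNReal.ofReal (2 ^ ((N : ℝ) + p)) *
        (ENNReal.ofReal (2 * p) * ((ENNReal.ofReal (1 / θ) * ENNReal.ofReal (min t (1 - t))) *
          J)) := by gcongr
    _ = K * A + c * (ENNReal.ofReal (min t (1 - t)) * J) := by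
        rw [hc]
        ring
    _ ≤ (K + c) * A + (K + c) * (ENNReal.ofReal (min t (1 - t)) * J) := by
        gcongr
        · exact le_self_add
        · exact le_add_self
    _ = _ := by ring

end Main

/-- Affirmative answer to Q1, for all measurable functions (with values in `[0, ∞]` allowed on both
sides), in particular for all Schwartz functions. -/
theorem result (N : ℕ) (p θ : ℝ) (hp : 1 < p) (hθ : 0 < θ) (_hθ1 : θ < 1) :
    ∃ C : ℝ, 0 < C ∧ ∀ s t : ℝ, θ < s → s < t → t < 1 →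
      ∀ f : EuclideanSpace ℝ (Fin N) → ℂ, Measurable f →
        ENNReal.ofReal (min s (1 - s) ^ (1 / p)) * gagliardo N p s f ≤
          ENNReal.ofReal C * (lpNorm N p f +
            ENNReal.ofReal (min t (1 - t) ^ (1 / p)) * gagliardo N p t f) := by
  have hp0 : 0 < p := lt_trans zero_lt_one hp
  obtain ⟨M, hM, h⟩ := main_estimate N p θ hp hθ
  refine ⟨(M ^ (1 / p)).toReal + 1, by positivity, ?_⟩
  intro s t hs hst ht f hf
  have hs0 : 0 < s := hθ.trans hs
  have ht0 : 0 < t := hs0.trans hst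
  have key := h s t hs hst ht f hf
  have hm : ∀ u : ℝ, 0 < u → u < 1 → ENNReal.ofReal (min u (1 - u) ^ (1 / p)) * gagliardo N p u f =
      (ENNReal.ofReal (min u (1 - u)) * ∫⁻ h, inc p f h / ‖h‖ₑ ^ (N + u * p)) ^ (1 / p) := by
    intro u hu0 hu1
    rw [gagliardo, double_eq hf, ENNReal.mul_rpow_of_nonneg _ _ (by positivity),
      ENNReal.ofReal_rpow_of_pos (lt_min hu0 (by linarith))]
  rw [hm s hs0 (by linarith), hm t ht0 ht, lpNorm]
  set A : ℝ≥0∞ := ∫⁻ x, ‖f x‖ₑ ^ p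
  set J : ℝ≥0∞ := ENNReal.ofReal (min t (1 - t)) * ∫⁻ h, inc p f h / ‖h‖ₑ ^ (N + t * p)
  have h1p : 0 ≤ 1 / p := by positivity
  have h1p' : 1 / p ≤ 1 := by
    rw [div_le_one hp0]
    exact hp.le
  calc (ENNReal.ofReal (min s (1 - s)) * ∫⁻ h, inc p f h / ‖h‖ₑ ^ (N + s * p)) ^ (1 / p) ≤
      (M * (A + J)) ^ (1 / p) := ENNReal.rpow_le_rpow key h1p
    _ = M ^ (1 / p) * (A + J) ^ (1 / p) := ENNReal.mul_rpow_of_nonneg _ _ h1p
    _ ≤ M ^ (1 / p) * (A ^ (1 / p) + J ^ (1 / p)) := by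
        gcongr
        exact ENNReal.rpow_add_le_add_rpow _ _ h1p h1p'
    _ ≤ ENNReal.ofReal ((M ^ (1 / p)).toReal + 1) * (A ^ (1 / p) + J ^ (1 / p)) := by
        gcongr
        rw [ENNReal.ofReal_add ENNReal.toReal_nonneg zero_le_one,
          ENNReal.ofReal_toReal (ENNReal.rpow_ne_top_of_nonneg h1p hM)]
        exact le_self_add

end Pool.Agent.Results.MP_95ea62_an.UniformComparison
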